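import Pool.Agent.Work.MP_a98e4e_ag.Kunz.Res

/-!
The infinite resolution: an iterated mapping cone. `L` is a complex with a homotopy `s` between
`a b` and `0` with `s s = 0`. The complex `CM` has the terms `L n × L (n - 1) × ⋯ × L 0`.
-/

namespace LicciKunz

open IsLocalRing

universe u v

variable {R : Type u} [CommRing R]

section

variable (L : ℕ → Type v) [∀ i, AddCommGroup (L i)] [∀ i, Module R (L i)]

/-- the terms of the iterated cone -/
noncomputable def CM (R : Type u) [CommRing R] (L : ℕ → Type v) [∀ i, AddCommGroup (L i)]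
    [∀ i, Module R (L i)] : ℕ → ModuleCat.{v} R
  | 0 => ModuleCat.of R (L 0)
  | n + 1 => ModuleCat.of R (L (n + 1) × CM R L n)

/-- the term of degree zero -/
noncomputable def e0 : (CM R L 0) ≃ₗ[R] L 0 := LinearEquiv.refl R (L 0)

/-- the terms of positive degree -/
noncomputable def eS (n : ℕ) : (CM R L (n + 1)) ≃ₗ[R] (L (n + 1) × CM R L n) :=
  LinearEquiv.refl R (L (n + 1) × CM R L n)

variable {L}

/-- an element of the term of degree zero -/
@[irreducible] noncomputable def m0 (y : L 0) : CM R L 0 := (e0 L).symm y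

/-- an element of a term of positive degree -/
noncomputable def mk (n : ℕ) (x : L (n + 1)) (y : CM R L n) : CM R L (n + 1) :=
  (eS L n).symm (x, y)

theorem exists_m0 (z : CM R L 0) : ∃ y : L 0, z = m0 y := ⟨e0 L z, by simp [m0]⟩

theorem exists_mk (n : ℕ) (z : CM R L (n + 1)) : ∃ x y, z = mk n x y :=
  ⟨(eS L n z).1, (eS L n z).2, by simp [mk]⟩

theorem mk_add (n : ℕ) (x x' : L (n + 1)) (y y' : CM R L n) :
    mk n x y + mk n x' y' = mk n (x + x') (y + y') := by
  simp only [mk, ← map_add]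
  rfl

theorem mk_neg (n : ℕ) (x : L (n + 1)) (y : CM R L n) :
    - mk n x y = mk n (-x) (-y) := by
  simp only [mk, ← map_neg]
  rfl

theorem mk_zero (n : ℕ) : mk (R := R) (L := L) n 0 0 = 0 := by
  simp only [mk]
  exact map_zero _

theorem mk_inj {n : ℕ} {x x' : L (n + 1)} {y y' : CM R L n} (h : mk n x y = mk n x' y') :
    x = x' ∧ y = y' := by
  have := (eS L n).symm.injective h
  exact Prod.mk.injEq _ _ _ _ ▸ this

theorem m0_inj {y y' : L 0} (h : (m0 y : CM R L 0) = m0 y') : y = y' := by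
  unfold m0 at h
  exact (e0 (R := R) L).symm.injective h

variable (d : ∀ i, L (i + 1) →ₗ[R] L i) (s : ∀ i, L i →ₗ[R] L (i + 1))

/-- the first component -/
noncomputable def pr : ∀ n, (CM R L n) →ₗ[R] L n
  | 0 => (e0 L).toLinearMap
  | n + 1 => LinearMap.fst R (L (n + 1)) (CM R L n) ∘ₗ (eS L n).toLinearMap

/-- the attaching map of the cone -/
noncomputable def ph (a : R) : ∀ n, (CM R L n) →ₗ[R] L n
  | 0 => a • (e0 L).toLinearMap
  | n + 1 => (a • LinearMap.fst R (L (n + 1)) (CM R L n) +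
      s n ∘ₗ pr n ∘ₗ LinearMap.snd R (L (n + 1)) (CM R L n)) ∘ₗ (eS L n).toLinearMap

/-- the differential of the iterated cone -/
noncomputable def DD : ∀ n, R → R → ((CM R L (n + 1)) →ₗ[R] (CM R L n))
  | 0, a, _ => (e0 L).symm.toLinearMap ∘ₗ (d 0 ∘ₗ LinearMap.fst R (L 1) (CM R L 0) +
      a • (e0 L).toLinearMap ∘ₗ LinearMap.snd R (L 1) (CM R L 0)) ∘ₗ (eS L 0).toLinearMap
  | n + 1, a, b => (eS L n).symm.toLinearMap ∘ₗ LinearMap.prod
      (d (n + 1) ∘ₗ LinearMap.fst R (L (n + 2)) (CM R L (n + 1)) +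
        ph s a (n + 1) ∘ₗ LinearMap.snd R (L (n + 2)) (CM R L (n + 1)))
      (-(DD n b a ∘ₗ LinearMap.snd R (L (n + 2)) (CM R L (n + 1)))) ∘ₗ (eS L (n + 1)).toLinearMap

theorem pr_zero (y : L 0) : pr (R := R) 0 (m0 y) = y := by simp [pr, m0]

theorem pr_succ (n : ℕ) (x : L (n + 1)) (y : CM R L n) : pr (n + 1) (mk n x y) = x := by
  simp [pr, mk]

theorem ph_zero (a : R) (y : L 0) : ph (R := R) s a 0 (m0 y) = a • y := by simp [ph, m0]

theorem ph_succ (n : ℕ) (a : R) (x : L (n + 1)) (y : CM R L n) :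
    ph s a (n + 1) (mk n x y) = a • x + s n (pr n y) := by
  simp [ph, mk]

theorem DD_zero (a b : R) (x : L 1) (y : L 0) :
    DD d s 0 a b (mk 0 x (m0 y)) = m0 (d 0 x + a • y) := by
  simp [DD, mk, m0]

theorem DD_succ (n : ℕ) (a b : R) (x : L (n + 2)) (y : CM R L (n + 1)) :
    DD d s (n + 1) a b (mk (n + 1) x y) =
      mk n (d (n + 1) x + ph s a (n + 1) y) (- DD d s n b a y) := by
  simp only [DD, mk, LinearMap.comp_apply, LinearEquiv.coe_coe, LinearEquiv.apply_symm_apply]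
  rfl

theorem pr_DD (m : ℕ) (a b : R) (y : L (m + 1)) (z : CM R L m) :
    pr m (DD d s m a b (mk m y z)) = d m y + ph s a m z := by
  cases m with
  | zero =>
    obtain ⟨z, rfl⟩ := exists_m0 z
    rw [DD_zero, pr_zero, ph_zero]
  | succ k => rw [DD_succ, pr_succ]

theorem s_ph (hss : ∀ i x, s (i + 1) (s i x) = 0) (a : R) (m : ℕ) (z : CM R L m) :
    s m (ph s a m z) = a • s m (pr m z) := by
  cases m with
  | zero =>
    obtain ⟨z, rfl⟩ := exists_m0 z
    rw [ph_zero, pr_zero, map_smul]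
  | succ k =>
    obtain ⟨y, z, rfl⟩ := exists_mk k z
    rw [ph_succ, pr_succ, map_add, hss, add_zero, map_smul]

theorem d_ph (hss : ∀ i x, s (i + 1) (s i x) = 0) (a b : R)
    (hs0 : ∀ x, d 0 (s 0 x) = (a * b) • x)
    (hs1 : ∀ i x, d (i + 1) (s (i + 1) x) + s i (d i x) = (a * b) • x) (n : ℕ)
    (x : CM R L (n + 1)) :
    d n (ph s a (n + 1) x) = ph s a n (DD d s n b a x) := by
  cases n with
  | zero =>
    obtain ⟨x, y, rfl⟩ := exists_mk 0 x
    obtain ⟨y, rfl⟩ := exists_m0 y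
    rw [ph_succ, DD_zero, ph_zero, pr_zero, map_add, map_smul, hs0, smul_add, smul_smul]
  | succ m =>
    obtain ⟨x, y, rfl⟩ := exists_mk (m + 1) x
    obtain ⟨y, z, rfl⟩ := exists_mk m y
    rw [ph_succ, DD_succ, ph_succ, pr_succ, ph_succ, map_neg, map_neg, pr_DD, map_add, map_add,
      s_ph s hss, map_smul, smul_add, smul_add, smul_smul, ← hs1 m y]
    abel

theorem DD_DD (hdd : ∀ i x, d i (d (i + 1) x) = 0) (hss : ∀ i x, s (i + 1) (s i x) = 0) (n : ℕ) :
    ∀ (a b : R) (_hs0 : ∀ x, d 0 (s 0 x) = (a * b) • x)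
    (_hs1 : ∀ i x, d (i + 1) (s (i + 1) x) + s i (d i x) = (a * b) • x)
    (x : CM R L (n + 2)), DD d s n a b (DD d s (n + 1) a b x) = 0 := by
  induction n with
  | zero =>
    intro a b hs0 hs1 x
    obtain ⟨x, y, rfl⟩ := exists_mk 1 x
    obtain ⟨t, ht⟩ := exists_m0 (DD d s 0 b a y)
    have h1 := d_ph d s hss a b hs0 hs1 0 y
    rw [ht, ph_zero] at h1
    have h2 : - (m0 t : CM R L 0) = m0 (-t) := by simp [m0]
    rw [DD_succ, ht, h2, DD_zero, map_add, hdd, zero_add, h1, smul_neg, add_neg_cancel]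
    simp [m0]
  | succ n ih =>
    intro a b hs0 hs1 x
    obtain ⟨x, y, rfl⟩ := exists_mk (n + 2) x
    rw [DD_succ, DD_succ, map_add, hdd, zero_add, d_ph d s hss a b hs0 hs1 (n + 1) y, map_neg,
      map_neg, ih b a (by rwa [mul_comm b a]) (by rwa [mul_comm b a]), neg_zero, neg_zero,
      add_neg_cancel, mk_zero]

theorem DD_exact_step (hss : ∀ i x, s (i + 1) (s i x) = 0)
    (hex : ∀ i x, d i x = 0 → ∃ y, d (i + 1) y = x) (n : ℕ) (a b : R)
    (hs0 : ∀ x, d 0 (s 0 x) = (a * b) • x)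
    (hs1 : ∀ i x, d (i + 1) (s (i + 1) x) + s i (d i x) = (a * b) • x)
    (x : L (n + 1)) (y : CM R L n) (y' : CM R L (n + 1)) (hy' : DD d s n b a y' = y)
    (hx : d n x + ph s a n y = 0) : ∃ z, DD d s (n + 1) a b z = mk n x y := by
  have h2 : d n (x + ph s a (n + 1) y') = 0 := by
    rw [map_add, d_ph d s hss a b hs0 hs1 n, hy', hx]
  obtain ⟨w, hw⟩ := hex n _ h2
  refine ⟨mk (n + 1) w (-y'), ?_⟩
  rw [DD_succ, map_neg, map_neg, neg_neg, hy', hw, add_neg_cancel_right]

theorem DD_exact (hss : ∀ i x, s (i + 1) (s i x) = 0)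
    (hex : ∀ i x, d i x = 0 → ∃ y, d (i + 1) y = x) (n : ℕ) :
    ∀ (a b : R) (_hs0 : ∀ x, d 0 (s 0 x) = (a * b) • x)
    (_hs1 : ∀ i x, d (i + 1) (s (i + 1) x) + s i (d i x) = (a * b) • x)
    (_ha : ∀ (t : L 0) (w : L 1), d 0 w + a • t = 0 → ∃ t' w', t = d 0 w' + b • t')
    (_hb : ∀ (t : L 0) (w : L 1), d 0 w + b • t = 0 → ∃ t' w', t = d 0 w' + a • t')
    (x : CM R L (n + 1)), DD d s n a b x = 0 → ∃ y, DD d s (n + 1) a b y = x := by
  induction n with
  | zero =>
    intro a b hs0 hs1 ha hb x hx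
    obtain ⟨x, t, rfl⟩ := exists_mk 0 x
    obtain ⟨t, rfl⟩ := exists_m0 t
    rw [DD_zero] at hx
    have hx' : d 0 x + a • t = 0 := m0_inj (R := R) (by rw [hx]; simp [m0])
    obtain ⟨t', w', ht⟩ := ha t x hx'
    refine DD_exact_step d s hss hex 0 a b hs0 hs1 x (m0 t) (mk 0 w' (m0 t')) ?_ ?_
    · rw [DD_zero, ← ht]
    · rw [ph_zero, hx']
  | succ n ih =>
    intro a b hs0 hs1 ha hb x hx
    obtain ⟨x, y, rfl⟩ := exists_mk (n + 1) x
    rw [DD_succ] at hx
    obtain ⟨h1, h2⟩ := mk_inj (hx.trans (mk_zero n).symm)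
    obtain ⟨y', hy'⟩ := ih b a (by rwa [mul_comm b a]) (by rwa [mul_comm b a]) hb ha y
      (neg_eq_zero.1 h2)
    exact DD_exact_step d s hss hex (n + 1) a b hs0 hs1 x y y' hy' h1

theorem mem_mk {m : Ideal R} (n : ℕ) {x : L (n + 1)} {y : CM R L n}
    (hx : x ∈ (m • ⊤ : Submodule R (L (n + 1)))) (hy : y ∈ (m • ⊤ : Submodule R (CM R L n))) :
    mk n x y ∈ (m • ⊤ : Submodule R (CM R L (n + 1))) := by
  have h1 : ((x, 0) : L (n + 1) × CM R L n) ∈
      (m • ⊤ : Submodule R (L (n + 1) × CM R L n)) := by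
    have := Submodule.mem_map_of_mem (f := LinearMap.inl R (L (n + 1)) (CM R L n)) hx
    rw [Submodule.map_smul''] at this
    exact Submodule.smul_mono le_rfl le_top this
  have h2 : ((0, y) : L (n + 1) × CM R L n) ∈
      (m • ⊤ : Submodule R (L (n + 1) × CM R L n)) := by
    have := Submodule.mem_map_of_mem (f := LinearMap.inr R (L (n + 1)) (CM R L n)) hy
    rw [Submodule.map_smul''] at this
    exact Submodule.smul_mono le_rfl le_top this
  have h3 := Submodule.add_mem _ h1 h2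
  rw [Prod.mk_add_mk, add_zero, zero_add] at h3
  have h4 := Submodule.mem_map_of_mem (f := (eS L n).symm.toLinearMap) h3
  rw [Submodule.map_smul''] at h4
  exact Submodule.smul_mono le_rfl le_top h4

theorem ph_mem {m : Ideal R} (hs : ∀ i x, s i x ∈ (m • ⊤ : Submodule R (L (i + 1)))) {a : R}
    (ha : a ∈ m) (n : ℕ) (y : CM R L n) : ph s a n y ∈ (m • ⊤ : Submodule R (L n)) := by
  cases n with
  | zero =>
    obtain ⟨y, rfl⟩ := exists_m0 y
    rw [ph_zero]
    exact Submodule.smul_mem_smul ha trivial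
  | succ n =>
    obtain ⟨x, y, rfl⟩ := exists_mk n y
    rw [ph_succ]
    exact Submodule.add_mem _ (Submodule.smul_mem_smul ha trivial) (hs n _)

/-- minimality of the iterated cone -/
theorem DD_mem {m : Ideal R} (hd : ∀ i x, d i x ∈ (m • ⊤ : Submodule R (L i)))
    (hs : ∀ i x, s i x ∈ (m • ⊤ : Submodule R (L (i + 1)))) (n : ℕ) :
    ∀ {a b : R} (_ha : a ∈ m) (_hb : b ∈ m) (x : CM R L (n + 1)),
      DD d s n a b x ∈ (m • ⊤ : Submodule R (CM R L n)) := by
  induction n with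
  | zero =>
    intro a b ha hb x
    obtain ⟨x, y, rfl⟩ := exists_mk 0 x
    obtain ⟨y, rfl⟩ := exists_m0 y
    rw [DD_zero]
    unfold m0
    have h3 : d 0 x + a • y ∈ (m • ⊤ : Submodule R (L 0)) :=
      Submodule.add_mem _ (hd 0 x) (Submodule.smul_mem_smul ha trivial)
    have h4 := Submodule.mem_map_of_mem (f := (e0 L).symm.toLinearMap) h3
    rw [Submodule.map_smul''] at h4
    exact Submodule.smul_mono le_rfl le_top h4
  | succ n ih =>
    intro a b ha hb x
    obtain ⟨x, y, rfl⟩ := exists_mk (n + 1) x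
    rw [DD_succ]
    exact mem_mk n (Submodule.add_mem _ (hd _ x) (ph_mem s hs ha _ y))
      (Submodule.neg_mem _ (ih hb ha y))

theorem free_CM [∀ i, Module.Free R (L i)] (n : ℕ) : Module.Free R (CM R L n) := by
  induction n with
  | zero => exact Module.Free.of_equiv (e0 L).symm
  | succ n ih => exact Module.Free.of_equiv (eS L n).symm

theorem finite_CM [∀ i, Module.Finite R (L i)] (n : ℕ) : Module.Finite R (CM R L n) := by
  induction n with
  | zero => exact Module.Finite.equiv (e0 L).symm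
  | succ n ih => exact Module.Finite.equiv (eS L n).symm

theorem nontrivial_CM [Nontrivial (L 0)] (n : ℕ) : Nontrivial (CM R L n) := by
  induction n with
  | zero => exact (e0 (R := R) L).toEquiv.nontrivial
  | succ n ih => exact (eS (R := R) L n).toEquiv.nontrivial

end

end LicciKunz
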