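import Pool.Agent.Work.MP_a98e4e_ag.Kunz.Kos
import Pool.Agent.Work.MP_a98e4e_ag.Kunz.Cone

/-!
An almost complete intersection `J + (a)`, `J` generated by a regular sequence of length `k + 2`,
has no finite free resolution of length `k + 2` whose last term has rank one, if the `k + 3`
generators are minimal.
-/

namespace LicciKunz

open IsLocalRing RingTheory.Sequence Pool.Agent.Licci

universe u v

variable {R : Type u} [CommRing R]

/-- relations between the elements of a minimal system of generators -/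
theorem minimal_rel [IsLocalRing R] {n : ℕ} (aug : (Fin n → R) →ₗ[R] R)
    (hmin : ∀ x, aug x = 0 → ∀ j, x j ∈ maximalIdeal R) (f : Fin n → R)
    (hf : ∀ x, ∃ y : Fin n → R, ∑ j, y j * f j = aug x) (hf' : ∀ j, ∃ y, aug y = f j)
    (t : Fin n → R) (ht : ∑ j, t j * f j = 0) : ∀ j, t j ∈ maximalIdeal R := by
  classical
  choose Y hY using hf'
  choose S hS using fun i : Fin n => hf (Pi.single i 1)
  have h1 : ∀ i k, (Pi.single i 1 : Fin n → R) k - ∑ j, S i j * Y j k ∈ maximalIdeal R := by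
    intro i k
    have h2 : aug (Pi.single i 1 - ∑ j, S i j • Y j) = 0 := by
      rw [map_sub, map_sum, ← hS i, sub_eq_zero]
      refine Finset.sum_congr rfl fun j _ => ?_
      rw [map_smul, hY, smul_eq_mul]
    have h3 := hmin _ h2 k
    simpa using h3
  have h2 : ∀ k, ∑ j, t j * Y j k ∈ maximalIdeal R := by
    intro k
    have h3 : aug (∑ j, t j • Y j) = 0 := by
      rw [map_sum, ← ht]
      refine Finset.sum_congr rfl fun j _ => ?_
      rw [map_smul, hY, smul_eq_mul]
    have h4 := hmin _ h3 k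
    simpa using h4
  let q := residue R
  let Sb : Matrix (Fin n) (Fin n) (ResidueField R) := fun i j => q (S i j)
  let Yb : Matrix (Fin n) (Fin n) (ResidueField R) := fun i j => q (Y i j)
  let tb : Fin n → ResidueField R := fun j => q (t j)
  have hSY : Sb * Yb = 1 := by
    ext i k
    have h3 := (residue_eq_zero_iff _).2 (h1 i k)
    rw [map_sub, sub_eq_zero, map_sum] at h3
    rw [Matrix.mul_apply, Matrix.one_apply]
    have h4 : ∑ j, Sb i j * Yb j k = ∑ j, residue R (S i j * Y j k) := by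
      refine Finset.sum_congr rfl fun j _ => ?_
      rw [map_mul]
    rw [h4, ← h3, Pi.single_apply]
    by_cases h : i = k
    · simp [h]
    · rw [if_neg h, if_neg (Ne.symm h), map_zero]
  have hYS : Yb * Sb = 1 := mul_eq_one_comm.1 hSY
  have htY : Matrix.vecMul tb Yb = 0 := by
    ext k
    have h3 := (residue_eq_zero_iff _).2 (h2 k)
    rw [map_sum] at h3
    rw [Matrix.vecMul, dotProduct, Pi.zero_apply, ← h3]
    refine Finset.sum_congr rfl fun j _ => ?_
    rw [map_mul]
  have htb : tb = 0 := by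
    rw [← Matrix.vecMul_one tb, ← hYS, ← Matrix.vecMul_vecMul, htY, Matrix.zero_vecMul]
  intro j
  exact (residue_eq_zero_iff _).1 (congrFun htb j)

/-- the augmentation of the Koszul complex -/
noncomputable def eL {c : ℕ} (v : Fin c → R) : Al R c 1 →ₗ[R] R := (ev0 R c).toLinearMap ∘ₗ contr v 0

theorem eL_apply {c : ℕ} (v : Fin c → R) (ω : Al R c 1) : eL v ω = ev0 R c (contr v 0 ω) := rfl

theorem eL_contr {c : ℕ} (v : Fin c → R) (ω : Al R c 2) : eL v (contr v 1 ω) = 0 := by
  rw [eL_apply, contr_contr, map_zero]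

theorem mem_of_smul_top {M : Type*} [AddCommGroup M] [Module R M] {J : Ideal R} {x : M}
    (hx : x ∈ (J • ⊤ : Submodule R M)) (f : M →ₗ[R] R) : f x ∈ J := by
  have := Submodule.mem_map_of_mem (f := f) hx
  rw [Submodule.map_smul''] at this
  have h2 := Submodule.smul_mono (le_refl J) (le_top : Submodule.map f ⊤ ≤ ⊤) this
  rw [smul_eq_mul, Ideal.mul_top] at h2
  exact h2

theorem eL_mem {c : ℕ} (v : Fin c → R) (ω : Al R c 1) : eL v ω ∈ Ideal.span (Set.range v) :=
  mem_of_smul_top (contr_smul_mem v (J := Ideal.span (Set.range v))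
    (fun i => Ideal.subset_span ⟨i, rfl⟩) 0 ω)
    (ev0 R c).toLinearMap

theorem exists_eL {c : ℕ} (v : Fin c → R) {r : R} (hr : r ∈ Ideal.span (Set.range v)) :
    ∃ ω, eL v ω = r := by
  obtain ⟨t, ht⟩ := exists_frm v hr
  refine ⟨wedge (frm t) 0 ((ev0 R c).symm 1), ?_⟩
  rw [eL_apply, contr_wedge_zero, ht, map_smul, LinearEquiv.apply_symm_apply, smul_eq_mul, mul_one]

section core

variable {k : ℕ} (v : Fin (k + 2) → R) (hreg : IsWeaklyRegular R (List.ofFn v))
  {b : ℕ → ℕ} (aug : (Fin (b 1) → R) →ₗ[R] R)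
  (d : ∀ i : ℕ, (Fin (b (i + 2)) → R) →ₗ[R] (Fin (b (i + 1)) → R))
  (hex0 : ∀ x, aug x = 0 → ∃ y, d 0 y = x) (hex : ∀ i x, d i x = 0 → ∃ y, d (i + 1) y = x)
  (h00 : ∀ x, aug (d 0 x) = 0) (h0 : ∀ i x, d i (d (i + 1) x) = 0)
  (hb : b (k + 2) = 1) (hb' : b (k + 3) = 0)
  (α : ∀ n, Al R (k + 2) (n + 1) →ₗ[R] (Fin (b (n + 1)) → R))
  (hα0 : ∀ ω, aug (α 0 ω) = eL v ω)
  (hα : ∀ n ω, d n (α (n + 1) ω) = α n (contr v (n + 1) ω))

include hex0 hex h0 h00 hb' hα hα0 in
/-- `b I ⊆ J` -/
theorem mul_mem_of_mem (i0 : Fin (b (k + 2))) (x : R) (hx : ∃ y, aug y = x) :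
    x * α (k + 1) (vol R (k + 2)) i0 ∈ Ideal.span (Set.range v) := by
  obtain ⟨y, rfl⟩ := hx
  obtain ⟨h, -, hh⟩ := exists_homotopy (F := fun n => Al R (k + 2) (n + 1))
    (C := fun n => (Fin (b (n + 1)) → R)) (fun n => contr v (n + 1))
    (fun n x => contr_contr v (n + 1) x) aug d hex0 hex (fun n => aug y • α n)
    (fun n ω => by
      rw [LinearMap.smul_apply, LinearMap.smul_apply, map_smul, hα])
    ((LinearMap.toSpanSingleton R _ y) ∘ₗ eL v) (fun ω => by
      rw [LinearMap.smul_apply, map_smul, hα0, LinearMap.comp_apply,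
        LinearMap.toSpanSingleton_apply, map_smul, smul_eq_mul, smul_eq_mul, mul_comm])
    (fun ω => by rw [LinearMap.comp_apply, eL_contr, map_zero])
  have h1 := hh k (vol R (k + 2))
  have h2 : h (k + 1) (vol R (k + 2)) = 0 := by
    haveI : IsEmpty (Fin (b (k + 1 + 1 + 1))) := by rw [hb']; infer_instance
    exact Subsingleton.elim _ _
  rw [h2, map_zero, zero_add] at h1
  have h3 := congrFun h1 i0
  rw [LinearMap.smul_apply, Pi.smul_apply, smul_eq_mul] at h3
  rw [h3]
  exact mem_of_smul_top (contr_smul_mem v (J := Ideal.span (Set.range v))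
    (fun i => Ideal.subset_span ⟨i, rfl⟩) (k + 1)
    (vol R (k + 2))) ((LinearMap.proj i0) ∘ₗ h k)

include hreg h00 h0 hb hα hα0 in
/-- `J : I ⊆ J + (b)` -/
theorem mem_of_mul_mem (i0 : Fin (b (k + 2))) (r : R)
    (hr : ∀ y, r * aug y ∈ Ideal.span (Set.range v)) :
    ∃ z, r - z * α (k + 1) (vol R (k + 2)) i0 ∈ Ideal.span (Set.range v) := by
  obtain ⟨β, hβ0, hβ⟩ := exists_chain (F := fun n => (Fin (b (n + 1)) → R))
    (C := fun n => Al R (k + 2) (n + 1)) d h0 (eL v) (fun n => contr v (n + 1))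
    (fun ω hω => koszul_res v hreg 0 ω ((ev0 R (k + 2)).injective (by rw [map_zero]; exact hω)))
    (fun n ω hω => koszul_res v hreg (n + 1) ω hω) (r • aug) (fun y => exists_eL v (hr y))
    (fun y => by rw [LinearMap.smul_apply, h00, smul_zero])
  obtain ⟨h, -, hh⟩ := exists_homotopy (F := fun n => Al R (k + 2) (n + 1))
    (C := fun n => Al R (k + 2) (n + 1)) (fun n => contr v (n + 1))
    (fun n x => contr_contr v (n + 1) x) (eL v) (fun n => contr v (n + 1))
    (fun ω hω => koszul_res v hreg 0 ω ((ev0 R (k + 2)).injective (by rw [map_zero]; exact hω)))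
    (fun n ω hω => koszul_res v hreg (n + 1) ω hω)
    (fun n => r • LinearMap.id - β n ∘ₗ α n)
    (fun n ω => by
      simp only [LinearMap.sub_apply, LinearMap.smul_apply, LinearMap.id_apply,
        LinearMap.comp_apply, map_sub, map_smul]
      rw [hβ, hα]) 0 (fun ω => by
      simp only [LinearMap.sub_apply, LinearMap.smul_apply, LinearMap.id_apply,
        LinearMap.comp_apply, map_sub, map_smul]
      rw [hβ0, LinearMap.smul_apply, hα0, sub_self]
      simp) (fun ω => rfl)
  have h1 := hh k (vol R (k + 2))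
  have h2 : h (k + 1) (vol R (k + 2)) = 0 := by
    haveI := subsingleton_al (R := R) (c := k + 2) (i := k + 1 + 1 + 1) (by omega)
    exact Subsingleton.elim _ _
  rw [h2, map_zero, zero_add] at h1
  have h3 : α (k + 1) (vol R (k + 2)) =
      α (k + 1) (vol R (k + 2)) i0 • (Pi.single i0 1 : Fin (b (k + 2)) → R) := by
    ext j
    have hj : j = i0 := by
      apply Fin.ext
      have hb2 : b (k + 1 + 1) = 1 := hb
      have := j.2
      have := i0.2
      omega
    rw [hj]
    simp
  refine ⟨evt R (k + 2) (β (k + 1) (Pi.single i0 1)), ?_⟩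
  have h4 := congrArg (evt R (k + 2)) h1
  rw [LinearMap.sub_apply, LinearMap.smul_apply, LinearMap.id_apply, LinearMap.comp_apply, h3,
    map_smul, map_sub, evt_smul_vol, map_smul, smul_eq_mul] at h4
  rw [mul_comm, h4]
  exact mem_of_smul_top (contr_smul_mem v (J := Ideal.span (Set.range v))
    (fun i => Ideal.subset_span ⟨i, rfl⟩) (k + 1)
    (vol R (k + 2))) (evt R (k + 2) ∘ₗ h k)

include hreg h00 h0 hb hα hα0 in
/-- `J : b ⊆ I` -/
theorem mem_of_mul_mem' (i0 : Fin (b (k + 2))) (r : R)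
    (hr : r * α (k + 1) (vol R (k + 2)) i0 ∈ Ideal.span (Set.range v)) :
    ∃ y, aug y = r := by
  have key : ∀ j i, i + j = k → ∃ τ : Al R (k + 2) (i + 1) →ₗ[R] (Fin (b (i + 2)) → R),
      ∀ ω : Al R (k + 2) (i + 2), r • α i (contr v (i + 1) ω) = d i (τ (contr v (i + 1) ω)) := by
    intro j
    induction j with
    | zero =>
      intro i hi
      rw [add_zero] at hi
      subst hi
      obtain ⟨t, ht⟩ := exists_frm v hr
      refine ⟨(LinearMap.toSpanSingleton R (Fin (b (i + 2)) → R) (Pi.single i0 1)) ∘ₗ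
        evt R (i + 2) ∘ₗ wedge (frm t) (i + 1), fun ω => ?_⟩
      have h1 : wedge (frm t) (i + 2) ω = 0 := by
        haveI := subsingleton_al (R := R) (c := i + 2) (i := i + 2 + 1) (by omega)
        exact Subsingleton.elim _ _
      have h2 := contr_wedge (frm t) v (i + 1) ω
      rw [h1, map_zero] at h2
      have h3 : wedge (frm t) (i + 1) (contr v (i + 1) ω) = frm t v • ω :=
        (sub_eq_zero.1 h2.symm).symm
      have h4 : α (i + 1) ω = (evt R (i + 2) ω * α (i + 1) (vol R (i + 2)) i0) •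
          (Pi.single i0 1 : Fin (b (i + 2)) → R) := by
        ext j
        have hj : j = i0 := by
          apply Fin.ext
          have hb2 : b (i + 1 + 1) = 1 := hb
          have := j.2
          have := i0.2
          omega
        rw [hj]
        conv_lhs => rw [← smul_vol ω]
        simp
      rw [← hα, ← map_smul, LinearMap.comp_apply, LinearMap.comp_apply, h3, ht,
        LinearMap.toSpanSingleton_apply, h4, smul_smul, map_smul (evt R (i + 2)), smul_eq_mul]
      congr 2
      ring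
    | succ j ih =>
      intro i hi
      obtain ⟨τ, hτ⟩ := ih (i + 1) (by omega)
      obtain ⟨σ, hσ⟩ := koszul_dual v hreg (Fin (b (i + 2)) → R) (i + 1) (by omega)
        (r • α (i + 1) - d (i + 1) ∘ₗ τ) (fun ω => by
          rw [LinearMap.sub_apply, LinearMap.smul_apply, LinearMap.comp_apply, hτ, sub_self])
      refine ⟨σ, fun ω => ?_⟩
      rw [← hσ, LinearMap.sub_apply, LinearMap.smul_apply, LinearMap.comp_apply, map_sub, h0,
        sub_zero, map_smul, hα]
  obtain ⟨τ, hτ⟩ := key k 0 (by omega)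
  obtain ⟨σ, hσ⟩ := koszul_dual v hreg (Fin (b 1) → R) 0 (by omega)
    (r • α 0 - d 0 ∘ₗ τ) (fun ω => by
      rw [LinearMap.sub_apply, LinearMap.smul_apply, LinearMap.comp_apply, hτ, sub_self])
  refine ⟨σ ((ev0 R (k + 2)).symm 1), ?_⟩
  obtain ⟨ω, hω⟩ := exists_eL v (r := v 0) (Ideal.subset_span ⟨0, rfl⟩)
  have h1 := congrArg aug (hσ ω)
  rw [LinearMap.sub_apply, LinearMap.smul_apply, LinearMap.comp_apply, map_sub, h00, sub_zero,
    map_smul, hα0, hω] at h1
  have h2 : contr v 0 ω = v 0 • (ev0 R (k + 2)).symm 1 := by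
    apply (ev0 R (k + 2)).injective
    rw [map_smul, LinearEquiv.apply_symm_apply, smul_eq_mul, mul_one, ← hω]
    rfl
  rw [h2, map_smul, map_smul] at h1
  have h3 : IsSMulRegular R (v 0) := by
    have := hreg
    rw [List.ofFn_succ, isWeaklyRegular_cons_iff] at this
    exact this.1
  apply h3
  show v 0 • aug (σ ((ev0 R (k + 2)).symm 1)) = v 0 • r
  rw [← h1, smul_eq_mul, smul_eq_mul, mul_comm]

end core

end LicciKunz
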