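import Mathlib

/-!
Chain maps and homotopies between free resolutions; a minimal resolution vanishes in every degree
in which some resolution vanishes; an acyclicity lemma for bounded chain complexes.
-/

namespace LicciKunz

open IsLocalRing RingTheory.Sequence Pointwise

universe u v v' w

/-- dependent recursion -/
theorem exists_seq {A : ℕ → Type*} (P : ∀ n, A n → A (n + 1) → Prop) (Q : ∀ n, A n → Prop)
    (a0 : A 0) (h0 : Q 0 a0) (hs : ∀ n a, Q n a → ∃ a', P n a a' ∧ Q (n + 1) a') :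
    ∃ a : ∀ n, A n, a 0 = a0 ∧ (∀ n, Q n (a n)) ∧ ∀ n, P n (a n) (a (n + 1)) := by
  classical
  choose f hf using hs
  let g : ∀ n, {a : A n // Q n a} := fun n =>
    Nat.rec (motive := fun n => {a : A n // Q n a}) ⟨a0, h0⟩
      (fun n x => ⟨f n x.1 x.2, (hf n x.1 x.2).2⟩) n
  exact ⟨fun n => (g n).1, rfl, fun n => (g n).2, fun n => (hf n (g n).1 (g n).2).1⟩

variable {R : Type u} [CommRing R]

theorem exists_lift {P A B : Type*} [AddCommGroup P] [Module R P] [AddCommGroup A] [Module R A]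
    [AddCommGroup B] [Module R B] [Module.Projective R P] (d : A →ₗ[R] B) (f : P →ₗ[R] B)
    (h : ∀ x, ∃ y, d y = f x) : ∃ g : P →ₗ[R] A, ∀ x, d (g x) = f x := by
  obtain ⟨g, hg⟩ := Module.projective_lifting_property d.rangeRestrict
    (f.codRestrict (LinearMap.range d) h) (LinearMap.surjective_rangeRestrict d)
  refine ⟨g, fun x => ?_⟩
  have := congrArg (fun k => ((k x : LinearMap.range d) : B)) hg
  simpa using this

section complexes

variable {F : ℕ → Type v} {C : ℕ → Type v'} [∀ n, AddCommGroup (F n)] [∀ n, Module R (F n)]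
  [∀ n, AddCommGroup (C n)] [∀ n, Module R (C n)] [∀ n, Module.Projective R (F n)]
  {M : Type w} [AddCommGroup M] [Module R M]

/-- existence of chain maps -/
theorem exists_chain (dF : ∀ n, F (n + 1) →ₗ[R] F n) (hF : ∀ n x, dF n (dF (n + 1) x) = 0)
    (eC : C 0 →ₗ[R] M) (dC : ∀ n, C (n + 1) →ₗ[R] C n)
    (hC0 : ∀ x, eC x = 0 → ∃ y, dC 0 y = x) (hC : ∀ n x, dC n x = 0 → ∃ y, dC (n + 1) y = x)
    (f : F 0 →ₗ[R] M) (hf : ∀ x, ∃ y, eC y = f x) (hf0 : ∀ x, f (dF 0 x) = 0) :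
    ∃ α : ∀ n, F n →ₗ[R] C n, (∀ x, eC (α 0 x) = f x) ∧
      ∀ n x, dC n (α (n + 1) x) = α n (dF n x) := by
  obtain ⟨α0, hα0⟩ := exists_lift eC f hf
  obtain ⟨α1, hα1⟩ := exists_lift (dC 0) (α0 ∘ₗ dF 0) (fun x => hC0 _ (by
    rw [LinearMap.comp_apply, hα0, hf0]))
  obtain ⟨α, h1, hQ, h2⟩ := exists_seq
    (A := fun n => (F n →ₗ[R] C n) × (F (n + 1) →ₗ[R] C (n + 1)))
    (fun n a a' => a'.1 = a.2)
    (fun n a => ∀ x, dC n (a.2 x) = a.1 (dF n x)) (α0, α1) hα1 (by
      rintro n ⟨a, a'⟩ h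
      simp only at h
      obtain ⟨a'', h''⟩ := exists_lift (dC (n + 1)) (a' ∘ₗ dF (n + 1)) (fun x => hC n _ (by
        rw [LinearMap.comp_apply, h, hF, map_zero]))
      exact ⟨(a', a''), rfl, h''⟩)
  refine ⟨fun n => (α n).1, fun x => ?_, fun n x => ?_⟩
  · show eC ((α 0).1 x) = f x
    rw [h1]
    exact hα0 x
  · show dC n ((α (n + 1)).1 x) = (α n).1 (dF n x)
    rw [h2 n]
    exact hQ n x

/-- existence of null-homotopies, relative to a given map in degree zero -/
theorem exists_homotopy (dF : ∀ n, F (n + 1) →ₗ[R] F n) (hF : ∀ n x, dF n (dF (n + 1) x) = 0)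
    (eC : C 0 →ₗ[R] M) (dC : ∀ n, C (n + 1) →ₗ[R] C n)
    (hC0 : ∀ x, eC x = 0 → ∃ y, dC 0 y = x) (hC : ∀ n x, dC n x = 0 → ∃ y, dC (n + 1) y = x)
    (γ : ∀ n, F n →ₗ[R] C n) (hγ : ∀ n x, dC n (γ (n + 1) x) = γ n (dF n x))
    (k : F 0 →ₗ[R] C 0) (hk : ∀ x, eC (γ 0 x) = eC (k x)) (hk0 : ∀ x, k (dF 0 x) = 0) :
    ∃ h : ∀ n, F n →ₗ[R] C (n + 1), (∀ x, γ 0 x = k x + dC 0 (h 0 x)) ∧
      ∀ n x, γ (n + 1) x = dC (n + 1) (h (n + 1) x) + h n (dF n x) := by
  obtain ⟨h0, hh0⟩ := exists_lift (dC 0) (γ 0 - k) (fun x => hC0 _ (by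
    rw [LinearMap.sub_apply, map_sub, hk, sub_self]))
  obtain ⟨h, h1, -, h2⟩ := exists_seq
    (A := fun n => (F n →ₗ[R] C (n + 1)))
    (fun n a a' => ∀ x, γ (n + 1) x = dC (n + 1) (a' x) + a (dF n x))
    (fun n a => ∀ x, dC n (γ (n + 1) x - a (dF n x)) = 0) h0 (by
      intro x
      rw [map_sub, hγ, hh0, LinearMap.sub_apply, hk0, sub_zero, sub_self]) (by
      intro n a ha
      obtain ⟨a', ha'⟩ := exists_lift (dC (n + 1)) (γ (n + 1) - a ∘ₗ dF n) (fun x => hC n _ (by
        rw [LinearMap.sub_apply, LinearMap.comp_apply, ha]))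
      refine ⟨a', fun x => ?_, fun x => ?_⟩
      · rw [ha', LinearMap.sub_apply, LinearMap.comp_apply, sub_add_cancel]
      · rw [map_sub, hγ, ha', LinearMap.sub_apply, LinearMap.comp_apply, hF, map_zero, sub_zero,
          sub_self])
  refine ⟨h, fun x => ?_, h2⟩
  rw [h1, hh0, LinearMap.sub_apply, add_sub_cancel]

/-- a minimal free resolution vanishes in every degree in which some resolution vanishes -/
theorem subsingleton_of_minimal [IsLocalRing R] [∀ n, Module.Projective R (C n)]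
    [∀ n, Module.Finite R (C n)]
    (eF : F 0 →ₗ[R] M) (dF : ∀ n, F (n + 1) →ₗ[R] F n) (hF00 : ∀ x, eF (dF 0 x) = 0)
    (hF1 : ∀ n x, dF n (dF (n + 1) x) = 0)
    (hF0 : ∀ x, eF x = 0 → ∃ y, dF 0 y = x) (hF : ∀ n x, dF n x = 0 → ∃ y, dF (n + 1) y = x)
    (eC : C 0 →ₗ[R] M) (dC : ∀ n, C (n + 1) →ₗ[R] C n) (hC00 : ∀ x, eC (dC 0 x) = 0)
    (hC1 : ∀ n x, dC n (dC (n + 1) x) = 0)
    (hC0 : ∀ x, eC x = 0 → ∃ y, dC 0 y = x) (hC : ∀ n x, dC n x = 0 → ∃ y, dC (n + 1) y = x)
    (hFC : ∀ x, ∃ y, eC y = eF x) (hCF : ∀ x, ∃ y, eF y = eC x)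
    (hmin : ∀ n x, dC n x ∈ (maximalIdeal R • ⊤ : Submodule R (C n)))
    (N : ℕ) (hN : Subsingleton (F N)) : Subsingleton (C N) := by
  obtain ⟨α, hα0, hα⟩ := exists_chain dF hF1 eC dC hC0 hC eF hFC hF00
  obtain ⟨β, hβ0, hβ⟩ := exists_chain dC hC1 eF dF hF0 hF eC hCF hC00
  obtain ⟨h, hh0, hh⟩ := exists_homotopy dC hC1 eC dC hC0 hC
    (fun n => α n ∘ₗ β n - LinearMap.id) (by
      intro n x
      simp only [LinearMap.sub_apply, LinearMap.comp_apply, LinearMap.id_apply, map_sub]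
      rw [hα, hβ]) 0 (by
      intro x
      simp only [LinearMap.sub_apply, LinearMap.comp_apply, LinearMap.id_apply, map_sub,
        LinearMap.zero_apply, map_zero]
      rw [hα0, hβ0, sub_self]) (by intro x; rfl)
  have hmem : ∀ x : C N, x ∈ (maximalIdeal R • ⊤ : Submodule R (C N)) := by
    intro x
    have h0 : β N x = 0 := Subsingleton.elim _ _
    cases N with
    | zero =>
      have h1 := hh0 x
      simp only [LinearMap.sub_apply, LinearMap.comp_apply, LinearMap.id_apply, h0, map_zero,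
        zero_sub, LinearMap.zero_apply, zero_add] at h1
      rw [← neg_mem_iff, h1]
      exact hmin 0 _
    | succ n =>
      have h1 := hh n x
      simp only [LinearMap.sub_apply, LinearMap.comp_apply, LinearMap.id_apply, h0, map_zero,
        zero_sub] at h1
      rw [← neg_mem_iff, h1]
      refine Submodule.add_mem _ (hmin _ _) ?_
      have h2 : h n (dC n x) ∈ (maximalIdeal R • ⊤ : Submodule R (C n)).map (h n) :=
        Submodule.mem_map_of_mem (hmin n x)
      rw [Submodule.map_smul''] at h2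
      exact Submodule.smul_mono le_rfl le_top h2
  have h3 : (⊤ : Submodule R (C N)) = ⊥ :=
    Submodule.eq_bot_of_le_smul_of_le_jacobson_bot (maximalIdeal R) ⊤ Module.Finite.fg_top
      (fun x _ => hmem x) (IsLocalRing.maximalIdeal_le_jacobson _)
  exact (Submodule.subsingleton_iff R).1 (subsingleton_of_bot_eq_top h3.symm)

end complexes

/-- Acyclicity of a bounded complex `0 → L m → ⋯ → L 0` on whose terms `rs` is weakly regular, and
on which the members of `rs` are homotopic to zero. -/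
theorem acyclic_rev (rs : List R) (m : ℕ) : ∀ (L : ℕ → Type v) [∀ i, AddCommGroup (L i)]
    [∀ i, Module R (L i)] (d : ∀ i, L (i + 1) →ₗ[R] L i)
    (_dd : ∀ i x, d i (d (i + 1) x) = 0) (_top : ∀ i, m < i → Subsingleton (L i))
    (_reg : ∀ i, IsWeaklyRegular (L i) rs)
    (_hom : ∀ r ∈ rs, ∃ s : ∀ i, L i →ₗ[R] L (i + 1),
      ∀ i x, d (i + 1) (s (i + 1) x) + s i (d i x) = r • x),
    ∀ i, m < i + 1 + rs.length → ∀ x, d i x = 0 → ∃ y, d (i + 1) y = x := by
  induction rs with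
  | nil =>
    intro L _ _ d _ top _ _ i hi x _
    have := top (i + 1) (by simpa using hi)
    exact ⟨0, Subsingleton.elim _ _⟩
  | cons a rs ih =>
    intro L _ _ d dd top reg hom i hi x hx
    have areg : ∀ i, IsSMulRegular (L i) a := fun i =>
      ((isWeaklyRegular_cons_iff (L i) a rs).1 (reg i)).1
    have qreg : ∀ i, IsWeaklyRegular (QuotSMulTop a (L i)) rs := fun i =>
      ((isWeaklyRegular_cons_iff (L i) a rs).1 (reg i)).2
    obtain ⟨s, s1⟩ := hom a (by simp)
    have key := ih (fun i => QuotSMulTop a (L i)) (fun i => QuotSMulTop.map a (d i))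
      (by
        intro i x
        obtain ⟨x, rfl⟩ := Submodule.Quotient.mk_surjective _ x
        rw [QuotSMulTop.map_apply_mk, QuotSMulTop.map_apply_mk, dd]; rfl)
      (by
        intro i hi
        have := top i hi
        refine ⟨fun x y => ?_⟩
        obtain ⟨x, rfl⟩ := Submodule.Quotient.mk_surjective _ x
        obtain ⟨y, rfl⟩ := Submodule.Quotient.mk_surjective _ y
        rw [Subsingleton.elim x y])
      qreg
      (by
        intro r hr
        obtain ⟨t, t1⟩ := hom r (List.mem_cons_of_mem _ hr)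
        refine ⟨fun i => QuotSMulTop.map a (t i), ?_⟩
        intro i x
        obtain ⟨x, rfl⟩ := Submodule.Quotient.mk_surjective _ x
        rw [QuotSMulTop.map_apply_mk, QuotSMulTop.map_apply_mk, QuotSMulTop.map_apply_mk,
          QuotSMulTop.map_apply_mk, ← Submodule.Quotient.mk_add, t1]; rfl)
    have h1 : a • x = d (i + 1) (s (i + 1) x) := by
      rw [← s1 i x, hx, map_zero, add_zero]
    have h2 : QuotSMulTop.map a (d (i + 1)) (Submodule.Quotient.mk (s (i + 1) x)) = 0 := by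
      rw [QuotSMulTop.map_apply_mk, ← h1, Submodule.Quotient.mk_eq_zero]
      exact (Submodule.mem_smul_pointwise_iff_exists _ _ _).2 ⟨x, trivial, rfl⟩
    obtain ⟨w, hw⟩ := key (i + 1) (by simp at hi ⊢; omega)
      (Submodule.Quotient.mk (s (i + 1) x)) h2
    obtain ⟨w, rfl⟩ := Submodule.Quotient.mk_surjective _ w
    rw [QuotSMulTop.map_apply_mk] at hw
    have h4 : (Submodule.Quotient.mk (s (i + 1) x - d (i + 2) w) :
        QuotSMulTop a (L (i + 2))) = 0 := by
      rw [Submodule.Quotient.mk_sub, hw, sub_self]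
    rw [Submodule.Quotient.mk_eq_zero] at h4
    obtain ⟨y, -, hy⟩ := (Submodule.mem_smul_pointwise_iff_exists _ _ _).1 h4
    refine ⟨y, ?_⟩
    apply areg (i + 1)
    show a • d (i + 1) y = a • x
    rw [h1, ← map_smul, hy, map_sub, dd, sub_zero]

end LicciKunz
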