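import Pool.Agent.Work.MP_a98e4e_ag.KoszulTop
import Pool.Agent.Work.MP_a98e4e_ag.Kunz.Res

/-!
The Koszul complex of a regular sequence: alternating forms on `R ^ c` with the contraction by the
vector `v` of the sequence. Exactness, dual exactness, the top degree.
-/

namespace LicciKunz

open IsLocalRing RingTheory.Sequence Pool.Agent.Licci

universe u v

variable {R : Type u} [CommRing R] {c : ℕ}

/-- the `i`-th term of the Koszul complex -/
abbrev Al (R : Type u) [CommRing R] (c i : ℕ) : Type u := (Fin c → R) [⋀^Fin i]→ₗ[R] R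

instance (i : ℕ) : Module.Free R (Al R c i) := by
  obtain ⟨m, ⟨e⟩⟩ := exists_altEquiv (R := R) (Fin c → R) i R
  exact Module.Free.of_equiv e.symm

instance (i : ℕ) : Module.Finite R (Al R c i) := by
  obtain ⟨m, ⟨e⟩⟩ := exists_altEquiv (R := R) (Fin c → R) i R
  exact Module.Finite.equiv e.symm

/-- evaluation of a form of degree zero -/
def ev0 (R : Type u) [CommRing R] (c : ℕ) : Al R c 0 ≃ₗ[R] R where
  toFun ω := ω ![]
  map_add' ω η := by simp
  map_smul' r ω := by simp
  invFun r := AlternatingMap.constOfIsEmpty R (Fin c → R) (Fin 0) r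
  left_inv ω := by
    ext v
    simp [Subsingleton.elim v ![]]
  right_inv r := by simp

/-- the linear form with given values -/
def frm (t : Fin c → R) : (Fin c → R) →ₗ[R] R := Fintype.linearCombination R t

theorem frm_apply (t v : Fin c → R) : frm t v = ∑ j, v j * t j := by
  simp [frm, Fintype.linearCombination_apply]

theorem subsingleton_al {i : ℕ} (hi : c < i) : Subsingleton (Al R c i) := by
  refine ⟨fun ω η => ?_⟩
  refine Module.Basis.ext_alternating (Pi.basisFun R (Fin c)) fun v hv => ?_
  exfalso
  have := Fintype.card_le_of_injective v hv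
  simp at this
  omega

theorem contr_smul_mem (v : Fin c → R) {J : Ideal R} (hv : ∀ i, v i ∈ J) (i : ℕ)
    (ω : Al R c (i + 1)) : contr v i ω ∈ (J • ⊤ : Submodule R (Al R c i)) := by
  have h1 : contr v i ω = ∑ j, v j • ω.curryLeft (Pi.basisFun R (Fin c) j) := by
    have h2 : v = ∑ j, v j • Pi.basisFun R (Fin c) j := by
      have := (Pi.basisFun R (Fin c)).sum_repr v
      simpa using this.symm
    show ω.curryLeft v = _
    conv_lhs => rw [h2]
    rw [map_sum]
    simp only [map_smul]
  rw [h1]
  exact Submodule.sum_mem _ fun j _ => Submodule.smul_mem_smul (hv j) trivial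

theorem wedge_smul_mem (g : (Fin c → R) →ₗ[R] R) {J : Ideal R} (hg : ∀ x, g x ∈ J) (i : ℕ)
    (ω : Al R c i) : wedge g i ω ∈ (J • ⊤ : Submodule R (Al R c (i + 1))) := by
  have h1 : g = ∑ j, g (Pi.basisFun R (Fin c) j) • (LinearMap.proj j : (Fin c → R) →ₗ[R] R) := by
    refine (Pi.basisFun R (Fin c)).ext fun k => ?_
    simp [Pi.single_apply]
  have h2 : wedge g i ω = ∑ j, g (Pi.basisFun R (Fin c) j) •
      wedge (LinearMap.proj j : (Fin c → R) →ₗ[R] R) i ω := by
    have h3 : ∀ s : Finset (Fin c), wedge (∑ j ∈ s, g (Pi.basisFun R (Fin c) j) •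
        (LinearMap.proj j : (Fin c → R) →ₗ[R] R)) i ω = ∑ j ∈ s, g (Pi.basisFun R (Fin c) j) •
        wedge (LinearMap.proj j : (Fin c → R) →ₗ[R] R) i ω := by
      intro s
      classical
      induction s using Finset.induction_on with
      | empty =>
        ext v
        simp [wedge_apply]
      | insert j s hj ih =>
        rw [Finset.sum_insert hj, Finset.sum_insert hj, wedge_add_left, wedge_smul_left, ih]
    rw [← h3, ← h1]
  rw [h2]
  exact Submodule.sum_mem _ fun j _ => Submodule.smul_mem_smul (hg _) trivial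

theorem contr_contr (v : Fin c → R) (i : ℕ) (ω : Al R c (i + 2)) :
    contr v i (contr v (i + 1) ω) = 0 := by
  ext w
  rw [contr_apply, contr_apply]
  exact ω.map_eq_zero_of_eq _ (i := 0) (j := 1) (by simp) (by simp)

theorem exists_frm (v : Fin c → R) {r : R} (hr : r ∈ Ideal.span (Set.range v)) :
    ∃ t : Fin c → R, frm t v = r := by
  obtain ⟨t, ht⟩ := (Submodule.mem_span_range_iff_exists_fun R).1 hr
  refine ⟨t, ?_⟩
  rw [frm_apply, ← ht]
  exact Finset.sum_congr rfl fun j _ => by rw [smul_eq_mul, mul_comm]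

/-- the Koszul complex is exact in positive degrees -/
theorem koszul_res (v : Fin c → R) (hreg : IsWeaklyRegular R (List.ofFn v)) (i : ℕ)
    (ω : Al R c (i + 1)) (h : contr v i ω = 0) : ∃ η : Al R c (i + 2), contr v (i + 1) η = ω := by
  refine acyclic_rev (List.ofFn v) c (fun i => Al R c i) (fun i => contr v i)
    (fun i x => contr_contr v i x) (fun i hi => subsingleton_al hi)
    (fun i => isWeaklyRegular_free hreg) ?_ i (by simp) ω h
  intro r hr
  rw [List.mem_ofFn] at hr
  obtain ⟨j, rfl⟩ := hr
  refine ⟨fun i => wedge (LinearMap.proj j) i, fun i x => ?_⟩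
  rw [contr_wedge]
  simp

/-- the dual of the Koszul complex is exact below the top degree -/
theorem koszul_dual (v : Fin c → R) (hreg : IsWeaklyRegular R (List.ofFn v)) (G : Type v)
    [AddCommGroup G] [Module R G] [Module.Free R G] [Module.Finite R G] (i : ℕ) (hi : i + 1 < c)
    (φ : Al R c (i + 1) →ₗ[R] G) (h : ∀ ω, φ (contr v (i + 1) ω) = 0) :
    ∃ σ : Al R c i →ₗ[R] G, ∀ ω, φ ω = σ (contr v i ω) := by
  have key := (acyclic_of_homotopy (List.ofFn v) (fun i => Al R c i →ₗ[R] G)
    (fun i => LinearMap.lcomp R G (contr v i)) (by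
      intro i x
      ext1 ω
      simp [contr_contr]) (fun i => isWeaklyRegular_free hreg) (by
      intro r hr
      rw [List.mem_ofFn] at hr
      obtain ⟨j, rfl⟩ := hr
      refine ⟨fun i => LinearMap.lcomp R G (wedge (LinearMap.proj j) i), fun x => ?_,
        fun i x => ?_⟩
      · ext1 ω
        simp [contr_wedge_zero]
      · ext1 ω
        simp only [LinearMap.add_apply, LinearMap.lcomp_apply, LinearMap.smul_apply, ← map_add,
          contr_wedge, LinearMap.proj_apply]
        rw [add_sub_cancel, map_smul])).2 i (by simpa using hi) φ (by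
      ext1 ω
      exact h ω)
  obtain ⟨σ, hσ⟩ := key
  exact ⟨σ, fun ω => by rw [← hσ]; rfl⟩

/-- the volume form -/
noncomputable def vol (R : Type u) [CommRing R] (c : ℕ) : Al R c c := (Pi.basisFun R (Fin c)).det

theorem eq_smul_vol (ω : Al R c c) : ω = ω (Pi.basisFun R (Fin c)) • vol R c :=
  ω.eq_smul_basis_det (Pi.basisFun R (Fin c))

theorem vol_self : vol R c (Pi.basisFun R (Fin c)) = 1 := Module.Basis.det_self _

/-- evaluation of a form of top degree -/
noncomputable def evt (R : Type u) [CommRing R] (c : ℕ) : Al R c c →ₗ[R] R where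
  toFun ω := ω (Pi.basisFun R (Fin c))
  map_add' ω η := by simp
  map_smul' r ω := by simp

theorem evt_smul_vol (r : R) : evt R c (r • vol R c) = r := by
  rw [map_smul]
  show r * vol R c (Pi.basisFun R (Fin c)) = r
  rw [vol_self, mul_one]

theorem evt_vol : evt R c (vol R c) = 1 := vol_self

theorem smul_vol (ω : Al R c c) : evt R c ω • vol R c = ω := (eq_smul_vol ω).symm

end LicciKunz
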