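import Pool.Agent.Work.MP_a98e4e_ag.Kunz.Core
import Pool.Agent.Work.MP_a98e4e_ag.Split

/-!
Kunz's theorem: there is no perfect ideal of codimension `c`, deviation one and type one.
-/

namespace LicciKunz

open IsLocalRing RingTheory.Sequence Pool.Agent.Licci LicciCodimFour

universe u v

variable {R : Type u} [CommRing R]

/-- The almost complete intersection `(v, a)` has no finite free resolution of length `k + 2` with
last term of rank one. -/
theorem false_of_resolution [IsLocalRing R] {k : ℕ} (v : Fin (k + 2) → R) (a : R)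
    (hreg : IsWeaklyRegular R (List.ofFn v)) {b : ℕ → ℕ} (aug : (Fin (b 1) → R) →ₗ[R] R)
    (d : ∀ i : ℕ, (Fin (b (i + 2)) → R) →ₗ[R] (Fin (b (i + 1)) → R))
    (hex0 : ∀ x, aug x = 0 → ∃ y, d 0 y = x) (hex : ∀ i x, d i x = 0 → ∃ y, d (i + 1) y = x)
    (h00 : ∀ x, aug (d 0 x) = 0) (h0 : ∀ i x, d i (d (i + 1) x) = 0)
    (hb : b (k + 2) = 1) (hb' : b (k + 3) = 0)
    (hI : ∀ r, (∃ y, aug y = r) ↔ ∃ z, r - z * a ∈ Ideal.span (Set.range v))
    (hIm : ∀ y, aug y ∈ maximalIdeal R)
    (hrel : ∀ (t : Fin (k + 2) → R) (z : R), ∑ j, v j * t j = a * z →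
      z ∈ maximalIdeal R ∧ ∀ j, t j ∈ maximalIdeal R) : False := by
  set J : Ideal R := Ideal.span (Set.range v) with hJ
  have haI : ∃ y, aug y = a := (hI a).2 ⟨1, by rw [one_mul, sub_self]; exact J.zero_mem⟩
  have hJI : ∀ r ∈ J, ∃ y, aug y = r := fun r hr => (hI r).2 ⟨0, by rwa [zero_mul, sub_zero]⟩
  -- comparison of the Koszul complex with the resolution
  obtain ⟨α, hα0, hα⟩ := exists_chain (F := fun n => Al R (k + 2) (n + 1))
    (C := fun n => (Fin (b (n + 1)) → R)) (fun n => contr v (n + 1))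
    (fun n x => contr_contr v (n + 1) x) aug d hex0 hex (eL v)
    (fun ω => hJI _ (eL_mem v ω)) (fun ω => eL_contr v ω)
  obtain ⟨i0⟩ : Nonempty (Fin (b (k + 2))) := by rw [hb]; infer_instance
  set β : R := α (k + 1) (vol R (k + 2)) i0 with hβ
  have hmul : ∀ x, (∃ y, aug y = x) → x * β ∈ J := fun x hx =>
    mul_mem_of_mem v aug d hex0 hex h00 h0 hb' α hα0 hα i0 x hx
  have hcol : ∀ r, (∀ y, r * aug y ∈ J) → ∃ z, r - z * β ∈ J := fun r hr =>
    mem_of_mul_mem v hreg aug d h00 h0 hb α hα0 hα i0 r hr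
  have hcol' : ∀ r, r * β ∈ J → ∃ y, aug y = r := fun r hr =>
    mem_of_mul_mem' v hreg aug d h00 h0 hb α hα0 hα i0 r hr
  -- the homotopy
  obtain ⟨t, ht⟩ := exists_frm v (hmul a haI)
  obtain ⟨hβm, htm⟩ := hrel t β (by rw [← ht, frm_apply])
  have ham : a ∈ maximalIdeal R := by
    obtain ⟨y, hy⟩ := haI
    rw [← hy]; exact hIm y
  have hvm : ∀ i, v i ∈ maximalIdeal R := by
    intro i
    obtain ⟨y, hy⟩ := hJI (v i) (Ideal.subset_span ⟨i, rfl⟩)
    rw [← hy]; exact hIm y
  have hs0 : ∀ x : Al R (k + 2) 0, contr v 0 (wedge (frm t) 0 x) = (a * β) • x := by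
    intro x
    rw [contr_wedge_zero, ht]
  have hs1 : ∀ i (x : Al R (k + 2) (i + 1)), contr v (i + 1) (wedge (frm t) (i + 1) x) +
      wedge (frm t) i (contr v i x) = (a * β) • x := by
    intro i x
    rw [contr_wedge, ht, sub_add_cancel]
  have hJL : ∀ r ∈ J, ∃ w : Al R (k + 2) 1, contr v 0 w = (ev0 R (k + 2)).symm r := by
    intro r hr
    obtain ⟨w, hw⟩ := exists_eL v hr
    exact ⟨w, by rw [← hw, eL_apply, LinearEquiv.symm_apply_apply]⟩
  have hLJ : ∀ w : Al R (k + 2) 1, ev0 R (k + 2) (contr v 0 w) ∈ J := fun w => eL_mem v w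
  have ha : ∀ (t : Al R (k + 2) 0) (w : Al R (k + 2) 1), contr v 0 w + a • t = 0 →
      ∃ t' w', t = contr v 0 w' + β • t' := by
    intro t w h
    have h1 : ev0 R (k + 2) t * a ∈ J := by
      have h2 := congrArg (ev0 R (k + 2)) h
      rw [map_add, map_smul, map_zero, smul_eq_mul] at h2
      rw [mul_comm, eq_neg_of_add_eq_zero_right h2]
      exact J.neg_mem (hLJ w)
    obtain ⟨z, hz⟩ := hcol (ev0 R (k + 2) t) (fun y => by
      obtain ⟨z, hz⟩ := (hI _).1 ⟨y, rfl⟩
      have : ev0 R (k + 2) t * aug y = ev0 R (k + 2) t * (aug y - z * a) +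
        z * (ev0 R (k + 2) t * a) := by ring
      rw [this]
      exact J.add_mem (J.mul_mem_left _ hz) (J.mul_mem_left _ h1))
    obtain ⟨w', hw'⟩ := hJL _ hz
    refine ⟨(ev0 R (k + 2)).symm z, w', ?_⟩
    apply (ev0 R (k + 2)).injective
    rw [hw', map_add, map_smul, LinearEquiv.apply_symm_apply, LinearEquiv.apply_symm_apply,
      smul_eq_mul]
    ring
  have hb0 : ∀ (t : Al R (k + 2) 0) (w : Al R (k + 2) 1), contr v 0 w + β • t = 0 →
      ∃ t' w', t = contr v 0 w' + a • t' := by
    intro t w h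
    have h1 : ev0 R (k + 2) t * β ∈ J := by
      have h2 := congrArg (ev0 R (k + 2)) h
      rw [map_add, map_smul, map_zero, smul_eq_mul] at h2
      rw [mul_comm, eq_neg_of_add_eq_zero_right h2]
      exact J.neg_mem (hLJ w)
    obtain ⟨z, hz⟩ := (hI _).1 (hcol' _ h1)
    obtain ⟨w', hw'⟩ := hJL _ hz
    refine ⟨(ev0 R (k + 2)).symm z, w', ?_⟩
    apply (ev0 R (k + 2)).injective
    rw [hw', map_add, map_smul, LinearEquiv.apply_symm_apply, LinearEquiv.apply_symm_apply,
      smul_eq_mul]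
    ring
  -- the infinite minimal resolution
  let L : ℕ → Type u := fun i => Al R (k + 2) i
  let dL : ∀ i, L (i + 1) →ₗ[R] L i := fun i => contr v i
  let sL : ∀ i, L i →ₗ[R] L (i + 1) := fun i => wedge (frm t) i
  have hss : ∀ i x, sL (i + 1) (sL i x) = 0 := fun i x => wedge_wedge_self (frm t) i x
  have hdd : ∀ i x, dL i (dL (i + 1) x) = 0 := fun i x => contr_contr v i x
  have hexL : ∀ i x, dL i x = 0 → ∃ y, dL (i + 1) y = x := fun i x h => koszul_res v hreg i x h
  have hfm : ∀ x, frm t x ∈ maximalIdeal R := by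
    intro x
    rw [frm_apply]
    exact Ideal.sum_mem _ fun j _ => Ideal.mul_mem_left _ _ (htm j)
  have hmin : ∀ n x, DD dL sL n a β x ∈ (maximalIdeal R • ⊤ : Submodule R (CM R L n)) :=
    fun n x => DD_mem dL sL (fun i x => contr_smul_mem v hvm i x)
      (fun i x => wedge_smul_mem (frm t) hfm i x) n ham hβm x
  haveI : ∀ n, Module.Free R (CM R L n) := fun n => free_CM n
  haveI : ∀ n, Module.Finite R (CM R L n) := fun n => finite_CM n
  let eC : CM R L 1 →ₗ[R] R := (ev0 R (k + 2)).toLinearMap ∘ₗ (e0 L).toLinearMap ∘ₗ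
    DD dL sL 0 a β
  have heC : ∀ w y, eC (mk 0 w (m0 y)) = ev0 R (k + 2) (contr v 0 w) + a * ev0 R (k + 2) y := by
    intro w y
    show ev0 R (k + 2) (e0 L (DD dL sL 0 a β (mk 0 w (m0 y)))) = _
    rw [DD_zero]
    unfold m0
    rw [LinearEquiv.apply_symm_apply, map_add, map_smul, smul_eq_mul]
  have heC0 : ∀ x, eC x = 0 → DD dL sL 0 a β x = 0 := by
    intro x hx
    have h1 : e0 L (DD dL sL 0 a β x) = 0 :=
      (ev0 R (k + 2)).injective (by rw [map_zero]; exact hx)
    exact (e0 (R := R) L).injective (by rw [map_zero]; exact h1)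
  have hsub : Subsingleton (CM R L (k + 3)) := by
    refine subsingleton_of_minimal (F := fun n => (Fin (b (n + 1)) → R))
      (C := fun n => CM R L (n + 1)) aug d h00 h0 hex0 hex eC
      (fun n => DD dL sL (n + 1) a β) ?_ ?_ ?_ ?_ ?_ ?_ (fun n x => hmin (n + 1) x) (k + 2) ?_
    · intro x
      show ev0 R (k + 2) (e0 L (DD dL sL 0 a β (DD dL sL 1 a β x))) = 0
      rw [DD_DD dL sL hdd hss 0 a β hs0 hs1, map_zero, map_zero]
    · intro n x
      exact DD_DD dL sL hdd hss (n + 1) a β hs0 hs1 x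
    · intro x hx
      exact DD_exact dL sL hss hexL 0 a β hs0 hs1 ha hb0 x (heC0 x hx)
    · intro n x hx
      exact DD_exact dL sL hss hexL (n + 1) a β hs0 hs1 ha hb0 x hx
    · intro x
      obtain ⟨z, hz⟩ := (hI _).1 ⟨x, rfl⟩
      obtain ⟨w, hw⟩ := hJL _ hz
      refine ⟨mk 0 w (m0 ((ev0 R (k + 2)).symm z)), ?_⟩
      rw [heC, hw, LinearEquiv.apply_symm_apply, LinearEquiv.apply_symm_apply]
      ring
    · intro x
      obtain ⟨w, y, rfl⟩ := exists_mk 0 x
      obtain ⟨y, rfl⟩ := exists_m0 y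
      refine (hI _).2 ⟨ev0 R (k + 2) y, ?_⟩
      rw [heC]
      have : ev0 R (k + 2) (contr v 0 w) + a * ev0 R (k + 2) y - ev0 R (k + 2) y * a =
        ev0 R (k + 2) (contr v 0 w) := by ring
      rw [this]
      exact hLJ w
    · haveI : IsEmpty (Fin (b (k + 2 + 1))) := by rw [hb']; infer_instance
      infer_instance
  haveI : Nontrivial (L 0) := (ev0 R (k + 2)).toEquiv.nontrivial
  haveI : Nontrivial (CM R L (k + 3)) := nontrivial_CM (k + 3)
  exact not_subsingleton _ hsub

/-- general position -/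
theorem split_general [IsLocalRing R] [IsNoetherianRing R] [Infinite (ResidueField R)] {n c : ℕ}
    (hcn : c ≤ n) (f : Fin n → R) (hf : ∀ i, f i ∈ maximalIdeal R)
    (hreg : ∃ rs : List R, rs.length = c ∧ IsRegular R rs ∧
      ∀ r ∈ rs, r ∈ Ideal.span (Set.range f)) :
    ∃ F : Fin n → R, Ideal.span (Set.range F) = Ideal.span (Set.range f) ∧
      IsWeaklyRegular R ((List.ofFn F).take c) := by
  have hI : Ideal.span (Set.range f) ≤ maximalIdeal R := by
    rw [Ideal.span_le]
    rintro _ ⟨i, rfl⟩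
    exact hf i
  have hgr : ∃ rs : List R, rs.length = c ∧ (∀ y ∈ rs, y ∈ Ideal.span (Set.range f)) ∧
      IsRegular R rs := by
    obtain ⟨rs, h1, h2, h3⟩ := hreg
    exact ⟨rs, h1, h3, h2⟩
  have key : ∀ i ≤ c, ∃ F : Fin n → R,
      Ideal.span (Set.range F) = Ideal.span (Set.range f) ∧
      IsWeaklyRegular R ((List.ofFn F).take i) := by
    intro i
    induction i with
    | zero =>
      intro _
      exact ⟨f, rfl, by simp⟩
    | succ i ih =>
      intro hi
      obtain ⟨F, hF, hFr⟩ := ih (by omega)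
      have hi' : i < n := by omega
      -- the subspace of vectors with vanishing `i`-th coordinate
      let V : Submodule (ResidueField R) (Fin n → ResidueField R) :=
        LinearMap.ker (LinearMap.proj (⟨i, hi'⟩ : Fin n))
      have hV : V ≠ ⊤ := by
        intro h
        have h1 : (fun _ => 1 : Fin n → ResidueField R) ∈ V := by rw [h]; trivial
        have h2 : (1 : ResidueField R) = 0 := by simpa [V] using h1
        exact one_ne_zero h2
      obtain ⟨a, ha1, ha2⟩ := Pool.Agent.Licci.gp_row F (by rw [hF]; exact hI)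
        (by rw [hF]; exact hgr) ((List.ofFn F).take i) (by simp; omega) (by
          intro y hy
          have := List.mem_of_mem_take hy
          rw [List.mem_ofFn] at this
          exact Ideal.subset_span this) hFr {V} (by
          intro W hW
          rw [Finset.mem_singleton] at hW
          rw [hW]
          exact hV)
      have hunit : IsUnit (a ⟨i, hi'⟩) := by
        rw [← IsLocalRing.notMem_maximalIdeal, ← IsLocalRing.residue_eq_zero_iff]
        intro h
        apply ha1 V (Finset.mem_singleton_self V)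
        simp only [V, LinearMap.mem_ker, LinearMap.proj_apply]
        exact h
      refine ⟨Function.update F ⟨i, hi'⟩ (∑ j, a j * F j), ?_, ?_⟩
      · rw [span_update F _ a hunit, hF]
      · rw [take_ofFn_update]
        exact ha2
  exact key c le_rfl

/-- **Kunz's theorem.** There is no perfect ideal of codimension `c`, deviation one and type one:
an almost complete intersection is never Gorenstein. -/
theorem kunz [IsLocalRing R] [IsNoetherianRing R] [Infinite (ResidueField R)] (I : Ideal R)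
    (c : ℕ) (hc : 1 ≤ c) : ¬ IsPerfectWith I c 1 1 := by
  rintro ⟨hreg, b, hb1, hbc, hb0, ⟨F⟩⟩
  rcases Nat.lt_or_ge c 2 with hc2 | hc2
  · have : c = 1 := by omega
    subst this
    omega
  obtain ⟨k, rfl⟩ : ∃ k, c = k + 2 := ⟨c - 2, by omega⟩
  obtain ⟨e⟩ : Nonempty (Fin (k + 3) ≃ Fin (b 1)) := by rw [hb1]; exact ⟨Equiv.refl _⟩
  have hrange : ∀ r, r ∈ I ↔ ∃ y, F.aug y = r := by
    intro r
    have h : r ∈ LinearMap.range F.aug ↔ r ∈ I := by rw [F.range_aug]
    rw [← h, LinearMap.mem_range]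
  let f : Fin (k + 3) → R := fun i => F.aug (Pi.single (e i) 1)
  have hfI : Ideal.span (Set.range f) = I := by
    apply le_antisymm
    · rw [Ideal.span_le]
      rintro _ ⟨i, rfl⟩
      exact (hrange _).2 ⟨_, rfl⟩
    · intro r hr
      obtain ⟨y, rfl⟩ := (hrange r).1 hr
      have h1 : y = ∑ i : Fin (k + 3), y (e i) • (Pi.single (e i) 1 : Fin (b 1) → R) := by
        rw [Equiv.sum_comp e (fun j => y j • (Pi.single j 1 : Fin (b 1) → R))]
        ext j
        simp [Finset.sum_apply, Pi.single_apply]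
      rw [h1, map_sum]
      refine Ideal.sum_mem _ fun i _ => ?_
      rw [map_smul, smul_eq_mul]
      exact Ideal.mul_mem_left _ _ (Ideal.subset_span ⟨i, rfl⟩)
  obtain ⟨G, hG, hGr⟩ := split_general (c := k + 2) (n := k + 3) (by omega) f
    (fun i => F.minimal_aug _) (by
      obtain ⟨rs, h1, h2, h3⟩ := hreg
      exact ⟨rs, h1, h2, by rw [hfI]; exact h3⟩)
  rw [hfI] at hG
  have hGv : (List.ofFn G).take (k + 2) = List.ofFn (fun i : Fin (k + 2) => G i.castSucc) := by
    apply List.ext_getElem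
    · simp
    · intro j h1 h2
      simp only [List.getElem_take, List.getElem_ofFn]
      rfl
  rw [hGv] at hGr
  have hmem : ∀ r, (∃ y, F.aug y = r) ↔ ∃ y : Fin (k + 3) → R, ∑ j, y j * G j = r := by
    intro r
    rw [← hrange, ← hG]
    constructor
    · intro h
      obtain ⟨y, hy⟩ := (Submodule.mem_span_range_iff_exists_fun R).1 h
      exact ⟨y, hy⟩
    · intro h
      exact (Submodule.mem_span_range_iff_exists_fun R).2 h
  refine false_of_resolution (fun i : Fin (k + 2) => G i.castSucc) (G (Fin.last _)) hGr F.aug F.d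
    (fun x hx => (F.exact_aug x).1 hx) (fun i x hx => (F.exact_d i x).1 hx)
    (fun x => (F.exact_aug _).2 ⟨x, rfl⟩) (fun i x => (F.exact_d i _).2 ⟨x, rfl⟩) hbc
    (hb0 _ (by omega)) ?_ F.minimal_aug ?_
  · intro r
    rw [hmem]
    constructor
    · rintro ⟨y, rfl⟩
      refine ⟨y (Fin.last _), ?_⟩
      rw [Fin.sum_univ_castSucc, add_sub_cancel_right]
      exact Ideal.sum_mem _ fun j _ => Ideal.mul_mem_left _ _ (Ideal.subset_span ⟨j, rfl⟩)
    · rintro ⟨z, hz⟩
      obtain ⟨y, hy⟩ := (Submodule.mem_span_range_iff_exists_fun R).1 hz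
      refine ⟨Fin.snoc y z, ?_⟩
      rw [Fin.sum_univ_castSucc]
      simp only [Fin.snoc_castSucc, Fin.snoc_last]
      simp only [smul_eq_mul] at hy
      rw [hy, sub_add_cancel]
  · intro t z hz
    -- transport to `Fin (b 1)`
    have h1 := minimal_rel F.aug (fun x hx j => by
        obtain ⟨y, rfl⟩ := (F.exact_aug x).1 hx
        exact F.minimal_d 0 y j) (fun j => G (e.symm j)) (fun x => by
        obtain ⟨y, hy⟩ := (hmem _).1 ⟨x, rfl⟩
        refine ⟨fun j => y (e.symm j), ?_⟩
        rw [← hy]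
        exact Equiv.sum_comp e.symm (fun j => y j * G j)) (fun j => by
        rw [hmem]
        refine ⟨Pi.single (e.symm j) 1, ?_⟩
        simp [Pi.single_apply]) (fun j => (Fin.snoc t (-z) : Fin (k + 3) → R) (e.symm j)) (by
        rw [Equiv.sum_comp e.symm (fun j => (Fin.snoc t (-z) : Fin (k + 3) → R) j * G j),
          Fin.sum_univ_castSucc]
        simp only [Fin.snoc_castSucc, Fin.snoc_last]
        have h2 : ∑ i : Fin (k + 2), t i * G i.castSucc = ∑ i : Fin (k + 2), G i.castSucc * t i :=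
          Finset.sum_congr rfl fun i _ => mul_comm _ _
        rw [h2, hz]
        ring)
    refine ⟨?_, fun j => ?_⟩
    · have := h1 (e (Fin.last _))
      rw [Equiv.symm_apply_apply, Fin.snoc_last] at this
      exact (neg_mem_iff).1 this
    · have := h1 (e j.castSucc)
      rw [Equiv.symm_apply_apply, Fin.snoc_castSucc] at this
      exact this

end LicciKunz
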